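import Pool.Agent.V11307.S5.Five

set_option autoImplicit false

namespace Pool.Agent.Results.MP_147bb8_nt.QTwo

open Finset

/-- `a_k = (28k^2+18k+3) C(2k,k)^4 C(3k,k)` -/
def a (k : ℕ) : ℤ := (28 * (k : ℤ) ^ 2 + 18 * k + 3) * ((2 * k).choose k : ℤ) ^ 4 * ((3 * k).choose k : ℤ)

/-- For every `n > 1` the integer `∑_{k<n} a_k (-64)^(n-1-k)` is divisible by `(2n+1) n^2 C(2n,n)^2`. -/
theorem result : ∀ n : ℕ, 1 < n →
    (2 * (n : ℤ) + 1) * (n : ℤ) ^ 2 * ((2 * n).choose n : ℤ) ^ 2 ∣ ∑ k ∈ range n, a k * (-64) ^ (n - 1 - k) :=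
  fun _ hn => V11307.S5.S_dvd hn

end Pool.Agent.Results.MP_147bb8_nt.QTwo
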